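import Pool.Agent.H62.CJ.Def

/-!
# Project MS (MP_ecfee9_an): B(1) < 1/4, disproof of the Carleson-Jones conjecture (S06590)

Paper proof: note 1506 (helper56).  `F` is holomorphic and injective on `|z| < R0`, `R0 > 1`, bounded by 1.
`del z = 1 - |z|^2`, `mu w z = |w - F z| (del z)^(-k)` (so `u = 1 / mu`); the critical points of `mu w`
are the solutions of `Phi z = w`; they are saddles if `gd z > 0` and local minima if `gd z < 0`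
(`mu` has no local maximum where it is positive); `det (D Phi) = |F'|^2 / k^2 * gd`.
-/

set_option autoImplicit false

open Set Metric MeasureTheory
open scoped ComplexConjugate

namespace H56.MS

/-- univalent functions on a neighbourhood of the closed unit disc -/
structure Uni (F : ℂ → ℂ) (R0 : ℝ) : Prop where
  one_lt : 1 < R0
  diff : DifferentiableOn ℂ F (ball 0 R0)
  inj : InjOn F (ball 0 R0)
  zero : F 0 = 0
  bdd : ∀ z ∈ ball (0 : ℂ) R0, ‖F z‖ ≤ 1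

/-- `1 - |z|^2` -/
noncomputable def del (z : ℂ) : ℝ := 1 - ‖z‖ ^ 2

/-- `|w - F z| (1 - |z|^2)^(-k)` -/
noncomputable def mu (F : ℂ → ℂ) (k : ℝ) (w z : ℂ) : ℝ := ‖w - F z‖ * del z ^ (-k)

/-- the logarithmic gradient of `mu`: the derivative of `log mu` in direction `e` is `Re (e Lam1)` -/
noncomputable def Lam1 (F : ℂ → ℂ) (k : ℝ) (w z : ℂ) : ℂ :=
  -(deriv F z / (w - F z)) + 2 * (k : ℂ) * conj z / (del z : ℂ)

/-- the Hessian of `log mu`: the second derivative in the unit direction `e` is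
`Re (e^2 Hes) + 2 k / del^2` -/
noncomputable def Hes (F : ℂ → ℂ) (k : ℝ) (w z : ℂ) : ℂ :=
  -(deriv (deriv F) z / (w - F z)) - (deriv F z / (w - F z)) ^ 2 +
    2 * (k : ℂ) * (conj z) ^ 2 / (del z : ℂ) ^ 2

/-- the critical map: `z` is a critical point of `mu w` iff `z ≠ 0` and `w = Phi z` -/
noncomputable def Phi (F : ℂ → ℂ) (k : ℝ) (z : ℂ) : ℂ :=
  F z + (del z : ℂ) * deriv F z / (2 * (k : ℂ) * conj z)

/-- `2 k - 1 + del F'' / (F' conj z)` -/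
noncomputable def lamd (F : ℂ → ℂ) (k : ℝ) (z : ℂ) : ℂ :=
  2 * (k : ℂ) - 1 + (del z : ℂ) * (deriv (deriv F) z / deriv F z) / conj z

/-- the sign function: saddle if positive, local minimum of `mu` if negative -/
noncomputable def gd (F : ℂ → ℂ) (k : ℝ) (z : ℂ) : ℝ := (‖lamd F k z‖ ^ 2 - (‖z‖ ^ 4)⁻¹) / 4

/-- the value `u = 1 / mu` at the critical point -/
noncomputable def ut (F : ℂ → ℂ) (k : ℝ) (z : ℂ) : ℝ :=
  2 * k * ‖z‖ * del z ^ (k - 1) / ‖deriv F z‖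

/-- the Jacobian determinant of `Phi` -/
noncomputable def Jd (F : ℂ → ℂ) (k : ℝ) (z : ℂ) : ℝ := ‖deriv F z‖ ^ 2 / k ^ 2 * gd F k z

/-- the punctured unit disc -/
def PD : Set ℂ := {z : ℂ | z ≠ 0 ∧ ‖z‖ < 1}

/-- an abstract landscape on the unit disc -/
structure Land (μ : ℂ → ℝ) : Prop where
  cont : ContinuousOn μ (ball 0 1)
  nonneg : ∀ z ∈ ball (0 : ℂ) 1, 0 ≤ μ z
  proper : ∀ c : ℝ, ∃ r : ℝ, 0 < r ∧ r < 1 ∧ ∀ z ∈ ball (0 : ℂ) 1, r ≤ ‖z‖ → c < μ z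
  nomax : ∀ z ∈ ball (0 : ℂ) 1, 0 < μ z → ¬ IsLocalMax μ z
  zero : ∀ z ∈ ball (0 : ℂ) 1, ∀ z' ∈ ball (0 : ℂ) 1, μ z = 0 → μ z' = 0 → z = z'

/-- `s` is a saddle of `μ`: `μ` goes down in the directions `±e` up to distance `τ`, by the factor
`1 + η`, and up in the directions `±i e` -/
structure Sad (μ : ℂ → ℝ) (s e : ℂ) (τ η : ℝ) : Prop where
  mem : s ∈ ball (0 : ℂ) 1
  pos : 0 < μ s
  unit : ‖e‖ = 1
  tau : 0 < τ
  inball : ∀ t : ℝ, |t| ≤ τ → s + (t : ℂ) * e ∈ ball (0 : ℂ) 1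
  down : ∀ t : ℝ, t ≠ 0 → |t| ≤ τ → μ (s + (t : ℂ) * e) < μ s
  up : ∃ τ' : ℝ, 0 < τ' ∧ ∀ t : ℝ, t ≠ 0 → |t| ≤ τ' →
    s + (t : ℂ) * (Complex.I * e) ∈ ball (0 : ℂ) 1 ∧ μ s < μ (s + (t : ℂ) * (Complex.I * e))
  drop : ∀ t : ℝ, |t| = τ → (1 + η) * μ (s + (t : ℂ) * e) ≤ μ s

/-- `om k y = (1 - e^(-2y))^k / Y`, `Y = (e^(2y) - 1)/2` -/
noncomputable def om (k y : ℝ) : ℝ := (1 - Real.exp (-2 * y)) ^ k * (2 / (Real.exp (2 * y) - 1))

/-- `G = |A - i c|^2 - 1/4`, `c = 1/2 - k`, written out -/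
noncomputable def G0 (k : ℝ) (A : ℂ) : ℝ := ‖A‖ ^ 2 - (1 - 2 * k) * A.im + k ^ 2 - k

/-- `C = y^2 (f''/f')'` -/
noncomputable def CC (f : ℂ → ℂ) (z : ℂ) : ℂ :=
  (z.im : ℂ) ^ 2 * deriv (fun ζ => deriv (deriv f) ζ / deriv f ζ) z

/-- the mixed moment with weight `|f'| y^(k-1)` -/
noncomputable def Mo (f : ℂ → ℂ) (k b : ℝ) (i j l m : ℕ) : ℂ :=
  ∫ y in Ioc 0 b, ((y ^ (k - 1) : ℝ) : ℂ) * ∫ x in (0 : ℝ)..(2 * Real.pi),
    (‖deriv f (H62.CJ.pt x y)‖ : ℂ) * (H62.CJ.AA f (H62.CJ.pt x y) ^ i *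
      conj (H62.CJ.AA f (H62.CJ.pt x y)) ^ j * CC f (H62.CJ.pt x y) ^ l *
      conj (CC f (H62.CJ.pt x y)) ^ m)

/-- the boundary moment at height `b` -/
noncomputable def bd (f : ℂ → ℂ) (k b : ℝ) (i j l m : ℕ) : ℂ :=
  ((b ^ k : ℝ) : ℂ) * ∫ x in (0 : ℝ)..(2 * Real.pi),
    (‖deriv f (H62.CJ.pt x b)‖ : ℂ) * (H62.CJ.AA f (H62.CJ.pt x b) ^ i *
      conj (H62.CJ.AA f (H62.CJ.pt x b)) ^ j * CC f (H62.CJ.pt x b) ^ l *
      conj (CC f (H62.CJ.pt x b)) ^ m)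

end H56.MS
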