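import Pool.Agent.H56.MS.Def

/-!
# MS-W1: the edge integral of the winding number

`edge a b q = int_0^1 (b - a) / (a + t (b - a) - q) dt`.

* `edge_hasDerivAt`: for `q` off the segment, differentiate under the integral
  (`intervalIntegral.hasDerivAt_integral_of_dominated_loc_of_deriv_le` or
  `hasDerivAt_integral_of_...`; near `q` the denominators are bounded below because the segment is compact):
  the derivative is `int_0^1 (b - a) / (a + t (b - a) - q)^2 dt`, and the integrand has the primitive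
  `-1 / (a + t (b - a) - q)`.
* `edge_far`: `‖edge a b q‖ <= ‖b - a‖ / (‖q‖ - r)` if `‖a‖, ‖b‖ <= r < ‖q‖` (the segment is in the closed ball).
-/

set_option autoImplicit false

open Set Metric MeasureTheory

namespace H56.MS

/-- the edge integral -/
noncomputable def edge (a b q : ℂ) : ℂ := ∫ t in (0 : ℝ)..1, (b - a) / (a + (t : ℂ) * (b - a) - q)

theorem W1_seg (a b : ℂ) {t : ℝ} (h0 : 0 ≤ t) (h1 : t ≤ 1) :
    a + (t : ℂ) * (b - a) ∈ segment ℝ a b := by
  refine ⟨1 - t, t, by linarith, h0, by ring, ?_⟩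
  rw [Complex.real_smul, Complex.real_smul]
  push_cast
  ring

theorem edge_hasDerivAt (a b q : ℂ) (hq : q ∉ segment ℝ a b) :
    HasDerivAt (edge a b) (1 / (a - q) - 1 / (b - q)) q := by
  have hcl : IsCompact (segment ℝ a b) := by
    rw [segment_eq_image ℝ a b]
    exact isCompact_Icc.image (by fun_prop)
  have hne : (segment ℝ a b).Nonempty := ⟨a, left_mem_segment ℝ a b⟩
  have hdpos : 0 < infDist q (segment ℝ a b) :=
    (hcl.isClosed.notMem_iff_infDist_pos hne).1 hq
  obtain ⟨δ, hδ⟩ : ∃ δ : ℝ, δ = infDist q (segment ℝ a b) / 2 := ⟨_, rfl⟩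
  have hδpos : 0 < δ := by rw [hδ]; linarith
  have hlow : ∀ t : ℝ, 0 ≤ t → t ≤ 1 → ∀ x ∈ ball q δ, δ ≤ ‖a + (t : ℂ) * (b - a) - x‖ := by
    intro t ht0 ht1 x hx
    have h1 := W1_seg a b ht0 ht1
    have h2 : infDist q (segment ℝ a b) ≤ dist q (a + (t : ℂ) * (b - a)) := infDist_le_dist_of_mem h1
    have h3 : dist q (a + (t : ℂ) * (b - a)) ≤ dist q x + dist x (a + (t : ℂ) * (b - a)) :=
      dist_triangle _ _ _
    have h4 : dist x q < δ := hx
    rw [dist_comm] at h4
    have h5 : dist x (a + (t : ℂ) * (b - a)) = ‖a + (t : ℂ) * (b - a) - x‖ := by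
      rw [dist_comm, dist_eq_norm]
    rw [h5] at h3
    linarith
  have hq0 : ∀ t : ℝ, 0 ≤ t → t ≤ 1 → ∀ x ∈ ball q δ, a + (t : ℂ) * (b - a) - x ≠ 0 := by
    intro t ht0 ht1 x hx h0
    have h1 := hlow t ht0 ht1 x hx
    rw [h0, norm_zero] at h1
    linarith
  have hqq : q ∈ ball q δ := mem_ball_self hδpos
  have hmeas : ∀ x : ℂ, Measurable fun t : ℝ => (b - a) / (a + (t : ℂ) * (b - a) - x) := by
    intro x
    refine Measurable.div measurable_const ?_
    exact (measurable_const.add (Complex.measurable_ofReal.mul_const _)).sub_const x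
  have hmeas' : Measurable fun t : ℝ => (b - a) / (a + (t : ℂ) * (b - a) - q) ^ 2 := by
    refine Measurable.div measurable_const ?_
    exact ((measurable_const.add (Complex.measurable_ofReal.mul_const _)).sub_const q).pow_const 2
  have hcon : Continuous fun t : ℝ => a + (t : ℂ) * (b - a) - q :=
    (continuous_const.add (Complex.continuous_ofReal.mul continuous_const)).sub continuous_const
  have hF_int : IntervalIntegrable (fun t : ℝ => (b - a) / (a + (t : ℂ) * (b - a) - q))
      volume 0 1 := by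
    refine ContinuousOn.intervalIntegrable ?_
    rw [uIcc_of_le zero_le_one]
    exact continuousOn_const.div hcon.continuousOn fun t ht => hq0 t ht.1 ht.2 q hqq
  have hmain := intervalIntegral.hasDerivAt_integral_of_dominated_loc_of_deriv_le
    (μ := volume) (a := 0) (b := 1) (bound := fun _ => ‖b - a‖ / δ ^ 2)
    (F := fun x t => (b - a) / (a + (t : ℂ) * (b - a) - x))
    (F' := fun x t => (b - a) / (a + (t : ℂ) * (b - a) - x) ^ 2) (x₀ := q)
    (ball_mem_nhds q hδpos)
    (Filter.Eventually.of_forall fun x => (hmeas x).aestronglyMeasurable) hF_int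
    hmeas'.aestronglyMeasurable
    (Filter.Eventually.of_forall fun t ht x hx => by
      rw [uIoc_of_le zero_le_one] at ht
      rw [norm_div, norm_pow]
      have h1 := hlow t ht.1.le ht.2 x hx
      exact div_le_div_of_nonneg_left (norm_nonneg _) (by positivity)
        (pow_le_pow_left₀ hδpos.le h1 2))
    intervalIntegrable_const
    (Filter.Eventually.of_forall fun t ht x hx => by
      rw [uIoc_of_le zero_le_one] at ht
      have h1 := hq0 t ht.1.le ht.2 x hx
      have h2 : HasDerivAt (fun x : ℂ => a + (t : ℂ) * (b - a) - x) (-1) x :=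
        (hasDerivAt_id x).const_sub _
      have h3 := (hasDerivAt_const x (b - a)).div h2 h1
      refine h3.congr_deriv ?_
      ring)
  have hint : ∫ t in (0 : ℝ)..1, (b - a) / (a + (t : ℂ) * (b - a) - q) ^ 2 =
      1 / (a - q) - 1 / (b - q) := by
    have h1 : ∀ t ∈ uIcc (0 : ℝ) 1, HasDerivAt (fun t : ℝ => -1 / (a + (t : ℂ) * (b - a) - q))
        ((b - a) / (a + (t : ℂ) * (b - a) - q) ^ 2) t := by
      intro t ht
      rw [uIcc_of_le zero_le_one] at ht
      have h1 := hq0 t ht.1 ht.2 q hqq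
      have h2 : HasDerivAt (fun t : ℝ => (t : ℂ)) 1 t := by
        simpa using (hasDerivAt_id t).ofReal_comp
      have h3 : HasDerivAt (fun t : ℝ => a + (t : ℂ) * (b - a) - q) (1 * (b - a)) t :=
        ((h2.mul_const (b - a)).const_add a).sub_const q
      have h4 := (hasDerivAt_const t (-1 : ℂ)).div h3 h1
      refine h4.congr_deriv ?_
      ring
    rw [intervalIntegral.integral_eq_sub_of_hasDerivAt h1 hmain.1]
    simp only [Complex.ofReal_one, Complex.ofReal_zero, one_mul, zero_mul, add_zero]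
    rw [show a + (b - a) - q = b - q by ring]
    ring
  have h2 := hmain.2
  rw [hint] at h2
  exact h2

theorem edge_far (a b q : ℂ) (r : ℝ) (ha : ‖a‖ ≤ r) (hb : ‖b‖ ≤ r) (hq : r < ‖q‖) :
    ‖edge a b q‖ ≤ ‖b - a‖ / (‖q‖ - r) := by
  have h1 : ∀ t ∈ uIoc (0 : ℝ) 1, ‖(b - a) / (a + (t : ℂ) * (b - a) - q)‖ ≤
      ‖b - a‖ / (‖q‖ - r) := by
    intro t ht
    rw [uIoc_of_le zero_le_one] at ht
    have h2 := W1_seg a b ht.1.le ht.2
    have h3 : a + (t : ℂ) * (b - a) ∈ closedBall (0 : ℂ) r :=
      (convex_closedBall (0 : ℂ) r).segment_subset (mem_closedBall_zero_iff.2 ha)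
        (mem_closedBall_zero_iff.2 hb) h2
    rw [mem_closedBall_zero_iff] at h3
    have h4 : ‖q‖ - ‖a + (t : ℂ) * (b - a)‖ ≤ ‖a + (t : ℂ) * (b - a) - q‖ := by
      rw [norm_sub_rev]
      exact norm_sub_norm_le _ _
    rw [norm_div]
    exact div_le_div_of_nonneg_left (norm_nonneg _) (by linarith) (by linarith)
  have h2 := intervalIntegral.norm_integral_le_of_norm_le_const h1
  unfold edge
  simpa using h2

end H56.MS
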