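import Pool.Agent.H56.MS.W1

/-!
# MS-W2: the winding sum of a closed polygon vanishes far away

The sum `N q = sum_i edge (p i) (p (i+1)) q` over a closed polygon has derivative
`sum_i (1/(p i - q) - 1/(p (i+1) - q)) = 0` off the polygon (telescoping, `Finset.sum_range_sub'`).

* `poly_deriv`: this.
* `poly_zero`: for `‖q‖ > r`: the function `t ↦ N (t q)`, `t >= 1`, has derivative 0 (chain rule), so it is constant
  (`constant_of_has_deriv_right_zero` / `is_const_of_deriv_eq_zero` on `Icc 1 T`, or the mean value inequality),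
  and it tends to 0 as `t → ∞` by `edge_far`; hence `N q = 0`.
-/

set_option autoImplicit false

open Set Metric MeasureTheory

namespace H56.MS

theorem poly_deriv (n : ℕ) (p : ℕ → ℂ) (hcl : p n = p 0) (q : ℂ)
    (hq : ∀ i < n, q ∉ segment ℝ (p i) (p (i + 1))) :
    HasDerivAt (fun z => ∑ i ∈ Finset.range n, edge (p i) (p (i + 1)) z) 0 q := by
  have h := HasDerivAt.fun_sum (u := Finset.range n)
    (A := fun i z => edge (p i) (p (i + 1)) z)
    (A' := fun i => 1 / (p i - q) - 1 / (p (i + 1) - q)) (x := q)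
    (fun i hi => edge_hasDerivAt (p i) (p (i + 1)) q (hq i (Finset.mem_range.mp hi)))
  rw [Finset.sum_range_sub' (fun i => 1 / (p i - q)) n, hcl, sub_self] at h
  exact h

theorem poly_zero (n : ℕ) (p : ℕ → ℂ) (r : ℝ) (hr : 0 ≤ r) (hp : ∀ i ≤ n, ‖p i‖ ≤ r)
    (hcl : p n = p 0) (q : ℂ) (hq : r < ‖q‖) :
    ∑ i ∈ Finset.range n, edge (p i) (p (i + 1)) q = 0 := by
  have hq0 : 0 < ‖q‖ := lt_of_le_of_lt hr hq
  have hD : ∀ z : ℂ, r < ‖z‖ →
      HasDerivAt (fun z => ∑ i ∈ Finset.range n, edge (p i) (p (i + 1)) z) 0 z := by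
    intro z hz
    apply poly_deriv n p hcl z
    intro i hi hmem
    have hc : Convex ℝ (closedBall (0 : ℂ) r) := convex_closedBall 0 r
    have h1 : p i ∈ closedBall (0 : ℂ) r := mem_closedBall_zero_iff.mpr (hp i hi.le)
    have h2 : p (i + 1) ∈ closedBall (0 : ℂ) r := mem_closedBall_zero_iff.mpr (hp (i + 1) hi)
    have h3 := hc.segment_subset h1 h2 hmem
    rw [mem_closedBall_zero_iff] at h3
    linarith
  set N : ℂ → ℂ := fun z => ∑ i ∈ Finset.range n, edge (p i) (p (i + 1)) z with hN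
  set S : ℝ := ∑ i ∈ Finset.range n, ‖p (i + 1) - p i‖ with hS
  have hS0 : 0 ≤ S := Finset.sum_nonneg fun i _ => norm_nonneg _
  -- constant along the ray
  have hray : ∀ T : ℝ, 1 ≤ T → N ((T : ℂ) * q) = N q := by
    intro T hT
    have hseg : ∀ z ∈ segment ℝ q ((T : ℂ) * q), r < ‖z‖ := by
      rintro z ⟨a, b, ha, hb, hab, rfl⟩
      have e : a • q + b • ((T : ℂ) * q) = ((a + b * T : ℝ) : ℂ) * q := by
        simp only [Complex.real_smul]
        push_cast
        ring
      rw [e, norm_mul, Complex.norm_real, Real.norm_eq_abs]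
      have h1 : 1 ≤ a + b * T := by nlinarith
      rw [abs_of_nonneg (by linarith)]
      nlinarith
    have hh := Convex.norm_image_sub_le_of_norm_hasDerivWithin_le (f := N) (f' := fun _ => 0)
      (C := 0) (s := segment ℝ q ((T : ℂ) * q)) (x := q) (y := (T : ℂ) * q)
      (fun z hz => (hD z (hseg z hz)).hasDerivWithinAt) (fun z _ => by simp)
      (convex_segment q ((T : ℂ) * q)) (left_mem_segment ℝ _ _) (right_mem_segment ℝ _ _)
    rw [zero_mul] at hh
    exact sub_eq_zero.mp (norm_le_zero_iff.mp hh)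
  have hbd : ∀ T : ℝ, 1 ≤ T → ‖N q‖ ≤ S / (T * ‖q‖ - r) := by
    intro T hT
    have hTq : ‖(T : ℂ) * q‖ = T * ‖q‖ := by
      rw [norm_mul, Complex.norm_real, Real.norm_eq_abs, abs_of_nonneg (by linarith)]
    have hlt : r < ‖(T : ℂ) * q‖ := by
      rw [hTq]; nlinarith
    rw [← hray T hT, hN]
    refine (norm_sum_le _ _).trans ?_
    rw [hS, Finset.sum_div]
    apply Finset.sum_le_sum
    intro i hi
    have hi' := Finset.mem_range.mp hi
    have := edge_far (p i) (p (i + 1)) ((T : ℂ) * q) r (hp i hi'.le) (hp (i + 1) hi') hlt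
    rwa [hTq] at this
  show N q = 0
  by_contra hne
  have he : 0 < ‖N q‖ := norm_pos_iff.mpr hne
  set e : ℝ := ‖N q‖ with hedef
  have hq1 : (1 + (S / e + r + 1) / ‖q‖) * ‖q‖ = ‖q‖ + (S / e + r + 1) := by
    field_simp
  have hSe : 0 ≤ S / e := div_nonneg hS0 he.le
  have hT1 : 1 ≤ 1 + (S / e + r + 1) / ‖q‖ := by
    have : 0 ≤ (S / e + r + 1) / ‖q‖ := div_nonneg (by linarith) hq0.le
    linarith
  have h := hbd _ hT1
  rw [hq1] at h
  have hpos : 0 < ‖q‖ + (S / e + r + 1) - r := by linarith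
  rw [le_div_iff₀ hpos] at h
  have hmul : e * (S / e) = S := by field_simp
  nlinarith

end H56.MS
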