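import Pool.Agent.H56.MS.W1

/-!
# MS-W3: the jump of the edge integral across a segment

For `‖e‖ = 1`: `edge (s - τ e) (s + τ e) (s + i t e) = int_{-τ}^{τ} dx / (x - i t)` (substitution
`x = (2 u - 1) τ`; the factor `e` cancels), and the same with `- i t`.  The difference is
`int_{-τ}^{τ} 2 i t / (x^2 + t^2) dx = 4 i arctan (τ / t)` (primitive `arctan (x / t)`), which tends to `2 π i` as
`t → 0+`.
-/

set_option autoImplicit false

open Set Metric MeasureTheory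

namespace H56.MS

/-- the denominator, sign `σ = 1` or `-1` -/
theorem W3_den (s e : ℂ) (τ t σ : ℝ) (u : ℝ) :
    s - (τ : ℂ) * e + (u : ℂ) * (s + (τ : ℂ) * e - (s - (τ : ℂ) * e)) -
      (s + (σ : ℂ) * ((t : ℂ) * (Complex.I * e))) =
      e * ((((2 * u - 1) * τ : ℝ) : ℂ) - ((σ * t : ℝ) : ℂ) * Complex.I) := by
  push_cast
  ring

theorem W3_ne (X T : ℝ) (hT : T ≠ 0) : ((X : ℝ) : ℂ) - ((T : ℝ) : ℂ) * Complex.I ≠ 0 := by
  intro h
  have h1 := congrArg Complex.im h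
  simp at h1
  exact hT h1

theorem W3_int (s e : ℂ) (τ t σ : ℝ) (he : e ≠ 0) (ht : σ * t ≠ 0) :
    IntervalIntegrable (fun u : ℝ =>
      (s + (τ : ℂ) * e - (s - (τ : ℂ) * e)) /
        (s - (τ : ℂ) * e + (u : ℂ) * (s + (τ : ℂ) * e - (s - (τ : ℂ) * e)) -
          (s + (σ : ℂ) * ((t : ℂ) * (Complex.I * e))))) MeasureTheory.volume 0 1 := by
  refine Continuous.intervalIntegrable ?_ _ _
  refine Continuous.div continuous_const (by fun_prop) ?_
  intro u
  rw [W3_den]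
  exact mul_ne_zero he (W3_ne _ _ ht)

theorem W3_eval (s e : ℂ) (τ t : ℝ) (he : e ≠ 0) (ht : 0 < t) :
    edge (s - (τ : ℂ) * e) (s + (τ : ℂ) * e) (s + (t : ℂ) * (Complex.I * e)) -
        edge (s - (τ : ℂ) * e) (s + (τ : ℂ) * e) (s - (t : ℂ) * (Complex.I * e)) =
      4 * Complex.I * ((Real.arctan (τ / t) : ℝ) : ℂ) := by
  have e1 : s + (t : ℂ) * (Complex.I * e) = s + ((1 : ℝ) : ℂ) * ((t : ℂ) * (Complex.I * e)) := by
    push_cast
    ring
  have e2 : s - (t : ℂ) * (Complex.I * e) = s + ((-1 : ℝ) : ℂ) * ((t : ℂ) * (Complex.I * e)) := by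
    push_cast
    ring
  have ht1 : (1 : ℝ) * t ≠ 0 := by positivity
  have ht2 : (-1 : ℝ) * t ≠ 0 := by
    intro h
    linarith
  rw [e1, e2]
  unfold edge
  rw [← intervalIntegral.integral_sub (W3_int s e τ t 1 he ht1) (W3_int s e τ t (-1) he ht2)]
  have hd : ∀ u ∈ Set.uIcc (0 : ℝ) 1, HasDerivAt
      (fun u : ℝ => 2 * Complex.I * ((Real.arctan ((2 * u - 1) * τ / t) : ℝ) : ℂ))
      ((s + (τ : ℂ) * e - (s - (τ : ℂ) * e)) /
        (s - (τ : ℂ) * e + (u : ℂ) * (s + (τ : ℂ) * e - (s - (τ : ℂ) * e)) -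
          (s + ((1 : ℝ) : ℂ) * ((t : ℂ) * (Complex.I * e)))) -
      (s + (τ : ℂ) * e - (s - (τ : ℂ) * e)) /
        (s - (τ : ℂ) * e + (u : ℂ) * (s + (τ : ℂ) * e - (s - (τ : ℂ) * e)) -
          (s + ((-1 : ℝ) : ℂ) * ((t : ℂ) * (Complex.I * e))))) u := by
    intro u _
    have h1 : HasDerivAt (fun u : ℝ => (2 * u - 1) * τ / t) (2 * τ / t) u := by
      have h2 := (((hasDerivAt_id u).const_mul (2 : ℝ)).sub_const (1 : ℝ)).mul_const τ
      have h3 := h2.div_const t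
      simpa using h3
    have h2 := (h1.arctan).ofReal_comp
    have h3 := h2.const_mul (2 * Complex.I)
    refine h3.congr_deriv ?_
    rw [W3_den, W3_den]
    have n1 := W3_ne ((2 * u - 1) * τ) (1 * t) ht1
    have n2 := W3_ne ((2 * u - 1) * τ) (-1 * t) ht2
    have ht0 : (t : ℂ) ≠ 0 := by exact_mod_cast ht.ne'
    have hpos : (0 : ℝ) < ((2 * u - 1) * τ) ^ 2 + t ^ 2 := by positivity
    have n3 : ((((2 * u - 1) * τ) ^ 2 + t ^ 2 : ℝ) : ℂ) ≠ 0 := by exact_mod_cast hpos.ne'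
    have hreal : 1 / (1 + ((2 * u - 1) * τ / t) ^ 2) * (2 * τ / t) =
        2 * τ * t / (((2 * u - 1) * τ) ^ 2 + t ^ 2) := by
      have hpos2 : (0 : ℝ) < 1 + ((2 * u - 1) * τ / t) ^ 2 := by positivity
      rw [eq_div_iff hpos.ne', div_mul_div_comm, one_mul, div_mul_eq_mul_div,
        div_eq_iff (mul_ne_zero hpos2.ne' ht.ne')]
      field_simp
      ring
    have hnum : s + (τ : ℂ) * e - (s - (τ : ℂ) * e) = e * (2 * (τ : ℂ)) := by ring
    rw [hreal, hnum, mul_div_mul_left _ _ he, mul_div_mul_left _ _ he, div_sub_div _ _ n1 n2]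
    have hprod : ((((2 * u - 1) * τ : ℝ) : ℂ) - ((1 * t : ℝ) : ℂ) * Complex.I) *
        ((((2 * u - 1) * τ : ℝ) : ℂ) - ((-1 * t : ℝ) : ℂ) * Complex.I) =
        ((((2 * u - 1) * τ) ^ 2 + t ^ 2 : ℝ) : ℂ) := by
      push_cast
      ring_nf
      simp only [Complex.I_sq]
      ring
    rw [hprod, Complex.ofReal_div, ← mul_div_assoc]
    congr 1
    push_cast
    ring
  rw [intervalIntegral.integral_eq_sub_of_hasDerivAt hd
    ((W3_int s e τ t 1 he ht1).sub (W3_int s e τ t (-1) he ht2))]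
  have h6 : ((2 * (1 : ℝ) - 1) * τ / t) = τ / t := by ring
  have h7 : ((2 * (0 : ℝ) - 1) * τ / t) = -(τ / t) := by ring
  rw [h6, h7, Real.arctan_neg]
  push_cast
  ring

theorem edge_jump (s e : ℂ) (τ : ℝ) (he : ‖e‖ = 1) (hτ : 0 < τ) :
    Filter.Tendsto (fun t : ℝ =>
      edge (s - (τ : ℂ) * e) (s + (τ : ℂ) * e) (s + (t : ℂ) * (Complex.I * e)) -
        edge (s - (τ : ℂ) * e) (s + (τ : ℂ) * e) (s - (t : ℂ) * (Complex.I * e)))
      (nhdsWithin 0 (Ioi 0)) (nhds (2 * Real.pi * Complex.I)) := by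
  have he0 : e ≠ 0 := by
    intro h
    rw [h, norm_zero] at he
    exact zero_ne_one he
  have h1 : Filter.Tendsto (fun t : ℝ => τ / t) (nhdsWithin 0 (Ioi 0)) Filter.atTop :=
    Filter.Tendsto.const_mul_atTop hτ tendsto_inv_nhdsGT_zero |>.congr (fun t => by
      rw [div_eq_mul_inv])
  have h2 : Filter.Tendsto (fun t : ℝ => Real.arctan (τ / t)) (nhdsWithin 0 (Ioi 0))
      (nhds (Real.pi / 2)) :=
    (tendsto_nhds_of_tendsto_nhdsWithin Real.tendsto_arctan_atTop).comp h1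
  have h3 : Filter.Tendsto (fun t : ℝ => 4 * Complex.I * ((Real.arctan (τ / t) : ℝ) : ℂ))
      (nhdsWithin 0 (Ioi 0)) (nhds (4 * Complex.I * ((Real.pi / 2 : ℝ) : ℂ))) :=
    ((Complex.continuous_ofReal.tendsto _).comp h2).const_mul _
  have h4 : 4 * Complex.I * ((Real.pi / 2 : ℝ) : ℂ) = 2 * Real.pi * Complex.I := by
    push_cast
    ring
  rw [h4] at h3
  refine h3.congr' ?_
  filter_upwards [self_mem_nhdsWithin] with t ht
  exact (W3_eval s e τ t he0 ht).symm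

end H56.MS
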