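import Pool.Agent.H56.MS.Def

/-!
# MS-W6: the minimum over a class

`K` is a subset of the disc which is closed under moving along segments inside `{μ < c}`, and contains a point `p0`
with `μ p0 < c`.  Then `μ` attains its infimum over `K`, at a local minimum of `μ`.

PROOF.  `K' = {z ∈ K | μ z <= μ p0}`.  The set `L = {z ∈ ball 0 1 | μ z <= μ p0}` is compact: by `hμ.proper (μ p0)` it is
contained in `closedBall 0 r`, `r < 1`, and it is closed because `μ` is continuous on the closed ball.  `K'` is closed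
in `L`: if `z_n → z*`, `z_n ∈ K'`, then `z* ∈ L`, `μ z* <= μ p0 < c`, so a ball around `z*` is contained in
`{z ∈ ball 0 1 | μ z < c}` (continuity); for large `n` the segment `[z_n, z*]` is in this ball (convex), so `z* ∈ K` by
`hopen`.  So `K'` is compact and nonempty; let `m` be a minimum point of `μ` on `K'`: it is a minimum on `K`
(points of `K` outside `K'` have larger values).  A ball around `m` inside `{μ < c}` is contained in `K` (`hopen` with
`a = m`), so `m` is a local minimum of `μ`.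
-/

set_option autoImplicit false

open Set Metric MeasureTheory

namespace H56.MS

theorem attain (μ : ℂ → ℝ) (hμ : Land μ) (c : ℝ) (K : Set ℂ) (hK : K ⊆ ball 0 1) (p0 : ℂ)
    (hp : p0 ∈ K) (hpc : μ p0 < c)
    (hopen : ∀ a ∈ K, ∀ b : ℂ, segment ℝ a b ⊆ {z : ℂ | z ∈ ball (0 : ℂ) 1 ∧ μ z < c} → b ∈ K) :
    ∃ m ∈ K, IsLocalMin μ m ∧ ∀ z ∈ K, μ m ≤ μ z := by
  have hUo : IsOpen {z : ℂ | z ∈ ball (0 : ℂ) 1 ∧ μ z < c} :=
    hμ.cont.isOpen_inter_preimage isOpen_ball isOpen_Iio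
  have hU : ∀ z ∈ ball (0 : ℂ) 1, μ z < c → ∃ ε > 0, ∀ a ∈ ball z ε, ∀ b ∈ ball z ε,
      segment ℝ a b ⊆ {z : ℂ | z ∈ ball (0 : ℂ) 1 ∧ μ z < c} := by
    intro z hz hzc
    obtain ⟨ε, hε, hs⟩ := Metric.isOpen_iff.1 hUo z ⟨hz, hzc⟩
    exact ⟨ε, hε, fun a ha b hb => ((convex_ball z ε).segment_subset ha hb).trans hs⟩
  obtain ⟨r, hr0, hr1, hr⟩ := hμ.proper (μ p0)
  have hsub : K ∩ {z | μ z ≤ μ p0} ⊆ closedBall 0 r := by
    rintro z ⟨hz, hz2⟩
    rw [mem_closedBall_zero_iff]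
    by_contra hc
    have := hr z (hK hz) (not_le.1 hc).le
    exact absurd hz2 (not_le.2 this)
  have hcr : closedBall (0 : ℂ) r ⊆ ball 0 1 := closedBall_subset_ball hr1
  have hcl2 : IsClosed (closedBall (0 : ℂ) r ∩ μ ⁻¹' Iic (μ p0)) :=
    (hμ.cont.mono hcr).preimage_isClosed_of_isClosed isClosed_closedBall isClosed_Iic
  have hcl : IsClosed (K ∩ {z | μ z ≤ μ p0}) := by
    apply isClosed_of_closure_subset
    intro z hz
    have h1 : z ∈ closedBall (0 : ℂ) r ∩ μ ⁻¹' Iic (μ p0) := by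
      refine closure_minimal ?_ hcl2 hz
      intro x hx
      exact ⟨hsub hx, hx.2⟩
    refine ⟨?_, h1.2⟩
    obtain ⟨ε, hε, hs⟩ := hU z (hcr h1.1) (lt_of_le_of_lt h1.2 hpc)
    obtain ⟨x, hx, hxz⟩ := Metric.mem_closure_iff.1 hz ε hε
    exact hopen x hx.1 z (hs x (by rw [mem_ball, dist_comm]; exact hxz) z (mem_ball_self hε))
  have hcomp : IsCompact (K ∩ {z | μ z ≤ μ p0}) :=
    (isCompact_closedBall 0 r).of_isClosed_subset hcl hsub
  obtain ⟨m, hm, hmin⟩ := hcomp.exists_isMinOn ⟨p0, hp, le_refl (μ p0)⟩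
    (hμ.cont.mono (fun x hx => hK hx.1))
  have hmin2 : ∀ z ∈ K, μ m ≤ μ z := by
    intro z hz
    rcases le_or_gt (μ z) (μ p0) with h | h
    · exact hmin ⟨hz, h⟩
    · exact (le_trans hm.2 h.le)
  refine ⟨m, hm.1, ?_, hmin2⟩
  obtain ⟨ε, hε, hs⟩ := hU m (hK hm.1) (lt_of_le_of_lt hm.2 hpc)
  filter_upwards [ball_mem_nhds m hε] with z hz
  exact hmin2 z (hopen m hm.1 z (hs m (mem_ball_self hε) z hz))

end H56.MS
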